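import Pool.Agent.V5helper35.AS.Stm

/-!
# Project AS, part 2, job PROD (helper36): the operation `Prd` for groups
-/

set_option autoImplicit false

namespace Pool.Agent.V5helper36.AS

open Pool.Agent.R387.TC Pool.Agent.N77.CS Pool.Agent.N77.CS.ASM Pool.Agent.V5helper35.AS

/-- the relative index of the image of a subgroup of finite index -/
theorem relIndex_map_subtype {Γ : Type} [Group Γ] (G : Subgroup Γ) (H : Subgroup G)
    [hf : H.FiniteIndex] : (H.map G.subtype).relIndex G ≠ 0 := by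
  have h1 : (H.map G.subtype).subgroupOf G = H :=
    Subgroup.comap_map_eq_self_of_injective G.subtype_injective H
  rw [Subgroup.relIndex, h1]
  exact hf.index_ne_zero

theorem t_PROD (hW : S_WR) : S_PROD := by
  intro k l G T P hG hT hP
  obtain ⟨hk, hS, -⟩ := hG
  obtain ⟨hl, hT, -⟩ := hT
  obtain ⟨k', rfl⟩ : ∃ k', k = k' + 1 := ⟨k - 1, by omega⟩
  obtain ⟨l', rfl⟩ : ∃ l', l = l' + 1 := ⟨l - 1, by omega⟩
  have hcj : ∀ g : F (k' + 1 + (l' + 1)), MulAut.conj g ∈ P := by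
    intro g
    rw [hP]
    refine ⟨g, 1, G.one_mem, 1, T.one_mem, ?_, ?_⟩
    · intro x
      rw [MulAut.conj_apply, MulAut.one_apply]
    · intro y
      rw [MulAut.conj_apply, MulAut.one_apply]
  have hPA : ∀ σ : G, PA (k' + 1) (l' + 1) (σ : MulAut (F (k' + 1))) ∈ P := by
    intro σ
    rw [hP]
    refine ⟨1, σ, σ.2, 1, T.one_mem, ?_, ?_⟩
    · intro x
      rw [PA_A]; simp
    · intro y
      rw [PA_B]; simp
  have hPB : ∀ τ : T, PB (k' + 1) (l' + 1) (τ : MulAut (F (l' + 1))) ∈ P := by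
    intro τ
    rw [hP]
    refine ⟨1, 1, G.one_mem, τ, τ.2, ?_, ?_⟩
    · intro x
      rw [PB_A]; simp
    · intro y
      rw [PB_B]; simp
  refine ⟨by omega, ?_, ⊤, norm_top _ _, fun h _ => hcj h⟩
  intro V hVP hV
  have hV' : (V.subgroupOf P).FiniteIndex := ⟨hV⟩
  set N : Subgroup P := (V.subgroupOf P).normalCore with hN
  have hNV : N ≤ V.subgroupOf P := Subgroup.normalCore_le _
  have hNfi : N.FiniteIndex := inferInstance
  let cj : F (k' + 1 + (l' + 1)) →* P := MulAut.conj.codRestrict P hcj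
  let pa : G →* P := ((PA (k' + 1) (l' + 1)).comp G.subtype).codRestrict P hPA
  let pb : T →* P := ((PB (k' + 1) (l' + 1)).comp T.subtype).codRestrict P hPB
  have hMfi : (N.comap cj).FiniteIndex := fi_comap _ _
  have hAfi : (N.comap pa).FiniteIndex := fi_comap _ _
  have hBfi : (N.comap pb).FiniteIndex := fi_comap _ _
  obtain ⟨Kc, hcc, hfc, hKc⟩ : ∃ K : Subgroup (F (k' + 1 + (l' + 1))), K.Characteristic ∧
      K.FiniteIndex ∧ ∀ g, (∀ x, g * x * g⁻¹ * x⁻¹ ∈ K) → g ∈ N.comap cj :=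
    centre (n := k' + 1 + l') ⟨0, by omega⟩ (N.comap cj)
  have hnc : Kc.Normal := inferInstance
  have hQ : Finite (F (k' + 1 + (l' + 1)) ⧸ Kc) := inferInstance
  obtain ⟨KA1, hcA, hfA, hKA1⟩ := hS ((N.comap pa).map G.subtype) (Subgroup.map_subtype_le _)
    (relIndex_map_subtype _ _)
  obtain ⟨KB1, hcB, hfB, hKB1⟩ := hT ((N.comap pb).map T.subtype) (Subgroup.map_subtype_le _)
    (relIndex_map_subtype _ _)
  have hfcA := core_fin (k' + 1) (F (k' + 1 + (l' + 1)) ⧸ Kc)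
  have hfcB := core_fin (l' + 1) (F (k' + 1 + (l' + 1)) ⧸ Kc)
  obtain ⟨K1, hc1, hf1, hK1⟩ := hW (k' + 1) (l' + 1) hk hl
    (KA1 ⊓ core (k' + 1) (F (k' + 1 + (l' + 1)) ⧸ Kc)) (char_inf hcA (core_char _ _))
    inferInstance
    (KB1 ⊓ core (l' + 1) (F (k' + 1 + (l' + 1)) ⧸ Kc)) (char_inf hcB (core_char _ _))
    inferInstance
  have hn1 : K1.Normal := inferInstance
  refine ⟨K1 ⊓ Kc, char_inf hc1 hcc, inferInstance, ?_⟩
  intro φ hφP hφ
  obtain ⟨g, σ, hσ, τ, hτ, h1, h2⟩ := (hP φ).1 hφP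
  obtain ⟨tA, tB⟩ := hK1 σ τ g⁻¹ (fun x => by
    have h3 := (hφ (iA (k' + 1) (l' + 1) x)).1
    rw [h1] at h3
    have h4 : g * iA _ _ (σ x) * g⁻¹ * (1 * iA _ _ x * 1⁻¹)⁻¹ ∈ K1 := by
      simpa using h3
    have h5 := tw h4
    simpa using h5) (fun y => by
    have h3 := (hφ (iB (k' + 1) (l' + 1) y)).1
    rw [h2] at h3
    have h4 : g * iB _ _ (τ y) * g⁻¹ * (1 * iB _ _ y * 1⁻¹)⁻¹ ∈ K1 := by
      simpa using h3
    have h5 := tw h4
    simpa using h5)
  have e1 : pa ⟨σ, hσ⟩ ∈ N := by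
    obtain ⟨σ', hσ', e⟩ := hKA1 σ hσ fun x => (tA x).1
    have e' : σ' = ⟨σ, hσ⟩ := Subtype.ext e
    rw [← e']
    exact hσ'
  have e2 : pb ⟨τ, hτ⟩ ∈ N := by
    obtain ⟨τ', hτ', e⟩ := hKB1 τ hτ fun x => (tB x).1
    have e' : τ' = ⟨τ, hτ⟩ := Subtype.ext e
    rw [← e']
    exact hτ'
  have e3 : PA (k' + 1) (l' + 1) σ ∈ trivSub Kc := by
    have h3 : (QuotientGroup.mk' Kc).comp (PA (k' + 1) (l' + 1) σ).toMonoidHom =
        QuotientGroup.mk' Kc := by
      apply ext_AB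
      · intro x
        change QuotientGroup.mk' Kc (PA _ _ σ (iA _ _ x)) = QuotientGroup.mk' Kc (iA _ _ x)
        rw [PA_A]
        have h4 := mem_core.1 (tA x).2 ((QuotientGroup.mk' Kc).comp (iA (k' + 1) (l' + 1)))
        rw [map_mul, map_inv, mul_inv_eq_one] at h4
        exact h4
      · intro y
        change QuotientGroup.mk' Kc (PA _ _ σ (iB _ _ y)) = QuotientGroup.mk' Kc (iB _ _ y)
        rw [PA_B]
    intro x
    apply (QuotientGroup.eq_one_iff _).1
    change QuotientGroup.mk' Kc (_ * _) = 1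
    rw [map_mul, map_inv, mul_inv_eq_one]
    exact DFunLike.congr_fun h3 x
  have e4 : PB (k' + 1) (l' + 1) τ ∈ trivSub Kc := by
    have h3 : (QuotientGroup.mk' Kc).comp (PB (k' + 1) (l' + 1) τ).toMonoidHom =
        QuotientGroup.mk' Kc := by
      apply ext_AB
      · intro x
        change QuotientGroup.mk' Kc (PB _ _ τ (iA _ _ x)) = QuotientGroup.mk' Kc (iA _ _ x)
        rw [PB_A]
      · intro y
        change QuotientGroup.mk' Kc (PB _ _ τ (iB _ _ y)) = QuotientGroup.mk' Kc (iB _ _ y)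
        rw [PB_B]
        have h4 := mem_core.1 (tB y).2 ((QuotientGroup.mk' Kc).comp (iB (k' + 1) (l' + 1)))
        rw [map_mul, map_inv, mul_inv_eq_one] at h4
        exact h4
    intro x
    apply (QuotientGroup.eq_one_iff _).1
    change QuotientGroup.mk' Kc (_ * _) = 1
    rw [map_mul, map_inv, mul_inv_eq_one]
    exact DFunLike.congr_fun h3 x
  have hdec := decomp h1 h2
  have e5 : φ ∈ trivSub Kc := fun x => (hφ x).2
  have e6 : MulAut.conj g ∈ trivSub Kc := by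
    have h3 := (trivSub Kc).mul_mem e5 ((trivSub Kc).inv_mem ((trivSub Kc).mul_mem e3 e4))
    rw [hdec, mul_inv_cancel_right] at h3
    exact h3
  have e7 : cj g ∈ N := hKc g fun x => by
    have h3 := e6 x
    rwa [MulAut.conj_apply] at h3
  have e8 : cj g * (pa ⟨σ, hσ⟩ * pb ⟨τ, hτ⟩) ∈ V.subgroupOf P :=
    hNV (N.mul_mem e7 (N.mul_mem e1 e2))
  rw [Subgroup.mem_subgroupOf] at e8
  rw [hdec]
  exact e8

end Pool.Agent.V5helper36.AS
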